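import Pool.Agent.Helper16_ANP.Gm

/-! V0 step: the mixture of the starts, the bound with the exceptional starts, the Gaussian tail. -/

set_option autoImplicit false

open MeasureTheory ProbabilityTheory

open scoped ENNReal NNReal BigOperators

noncomputable section

namespace Pool.Agent.ACX.H79

open Pool.Agent.ANP Pool.Agent.ANP.H16

variable {X : Type} [Fintype X]

/-- the inner integral is a measurable function of the start -/
theorem meas_start (a : X → ℝ) (q : X → ℝ≥0) (F : (X → ℝ) → ℝ≥0∞) (hF : Measurable F) :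
    Measurable (fun ζ : X → ℝ => ∫⁻ y, F y ∂(gm (fun x => a x + ζ x) q)) := by
  have h : (fun ζ : X → ℝ => ∫⁻ y, F y ∂(gm (fun x => a x + ζ x) q)) =
      fun ζ => ∫⁻ y, F (ζ + y) ∂(gm a q) := by
    funext ζ
    rw [← gm_shift a ζ q, lintegral_map hF (by fun_prop)]
  rw [h]
  exact Measurable.lintegral_prod_right' (f := fun z : (X → ℝ) × (X → ℝ) => F (z.1 + z.2))
    (hF.comp (by fun_prop))

theorem int_eq (a : X → ℝ) (q : X → ℝ≥0) (F : (X → ℝ) → ℝ) (hF : Measurable F)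
    (h0 : ∀ y, 0 ≤ F y) :
    ∫ y, F y ∂(gm a q) = (∫⁻ y, ENNReal.ofReal (F y) ∂(gm a q)).toReal :=
  integral_eq_lintegral_of_nonneg_ae (Filter.Eventually.of_forall h0) hF.aestronglyMeasurable

theorem lint_lt (a : X → ℝ) (q : X → ℝ≥0) (F : (X → ℝ) → ℝ) {C : ℝ} (h1 : ∀ y, F y ≤ C) :
    ∫⁻ y, ENNReal.ofReal (F y) ∂(gm a q) < ∞ := by
  have h : ∫⁻ y, ENNReal.ofReal (F y) ∂(gm a q) ≤ ∫⁻ _, ENNReal.ofReal C ∂(gm a q) :=
    lintegral_mono fun y => ENNReal.ofReal_le_ofReal (h1 y)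
  refine h.trans_lt ?_
  rw [lintegral_const, measure_univ, mul_one]
  exact ENNReal.ofReal_lt_top

/-- THE MIXTURE: general variances and general centre -/
theorem mix (a : X → ℝ) (p q : X → ℝ≥0) (F : (X → ℝ) → ℝ) (hF : Measurable F)
    (h0 : ∀ y, 0 ≤ F y) {C : ℝ} (h1 : ∀ y, F y ≤ C) :
    ∫ y, F y ∂(gm a (fun x => p x + q x)) =
      ∫ ζ, (∫ y, F y ∂(gm (fun x => a x + ζ x) q)) ∂(gm (fun _ => 0) p) := by
  have h2 : (fun ζ : X → ℝ => ∫ y, F y ∂(gm (fun x => a x + ζ x) q)) =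
      fun ζ => (∫⁻ y, ENNReal.ofReal (F y) ∂(gm (fun x => a x + ζ x) q)).toReal := by
    funext ζ
    exact int_eq _ q F hF h0
  have hO : Measurable fun y : X → ℝ => ENNReal.ofReal (F y) := ENNReal.measurable_ofReal.comp hF
  rw [int_eq _ _ F hF h0, h2, integral_toReal
    (meas_start a q (fun y => ENNReal.ofReal (F y)) hO).aemeasurable
    (Filter.Eventually.of_forall fun ζ => lint_lt _ q F h1),
    gm_step_lint a p q (fun y => ENNReal.ofReal (F y)) hO]

/-- the mixture, homogeneous variances, centre `0` -/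
theorem mix_const (w f : ℝ≥0) (hfw : f ≤ w) (F : (X → ℝ) → ℝ) (hF : Measurable F)
    (h0 : ∀ y, 0 ≤ F y) {C : ℝ} (h1 : ∀ y, F y ≤ C) :
    ∫ y, F y ∂(gm (fun _ : X => 0) (fun _ => w)) =
      ∫ V₀, (∫ y, F y ∂(gm V₀ (fun _ => w - f))) ∂(gm (fun _ => 0) (fun _ => f)) := by
  have h := mix (fun _ : X => (0 : ℝ)) (fun _ => f) (fun _ => w - f) F hF h0 h1
  have h2 : (fun _ : X => f + (w - f)) = fun _ => w := by
    funext x; exact add_tsub_cancel_of_le hfw
  rw [h2] at h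
  rw [h]
  refine integral_congr_ae (Filter.Eventually.of_forall fun ζ => ?_)
  have h3 : (fun x : X => (0 : ℝ) + ζ x) = ζ := by funext x; simp
  simp only [h3]

/-- THE BOUND, set of good starts `A`: outside `A` the integrand is bounded by its maximum -/
theorem start_le (w f : ℝ≥0) (hfw : f ≤ w) (F : (X → ℝ) → ℝ) (hF : Measurable F)
    (h0 : ∀ y, 0 ≤ F y) {C e : ℝ} (h1 : ∀ y, F y ≤ C) (he : 0 ≤ e)
    (B : Set (X → ℝ)) (hB : MeasurableSet B)
    (hin : ∀ V₀, V₀ ∉ B → ∫ y, F y ∂(gm V₀ (fun _ => w - f)) ≤ e) :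
    ∫ y, F y ∂(gm (fun _ : X => 0) (fun _ => w)) ≤
      e + C * (gm (fun _ : X => 0) (fun _ => f)).real B := by
  rw [mix_const w f hfw F hF h0 h1]
  have hC : 0 ≤ C := (h0 (fun _ => 0)).trans (h1 _)
  have hI : ∀ V₀ : X → ℝ, ∫ y, F y ∂(gm V₀ (fun _ => w - f)) ≤ C := by
    intro V₀
    have h2 : ∫ y, F y ∂(gm V₀ (fun _ => w - f)) ≤ ∫ _, C ∂(gm V₀ (fun _ => w - f)) := by
      refine integral_mono_of_nonneg (Filter.Eventually.of_forall h0) (integrable_const _)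
        (Filter.Eventually.of_forall h1)
    simpa using h2
  have hmeas : AEStronglyMeasurable (fun V₀ : X → ℝ => e + C * B.indicator (fun _ => (1 : ℝ)) V₀)
      (gm (fun _ : X => 0) (fun _ => f)) :=
    (measurable_const.add ((measurable_const.indicator hB).const_mul C)).aestronglyMeasurable
  have h3 : ∫ V₀, (∫ y, F y ∂(gm V₀ (fun _ => w - f))) ∂(gm (fun _ => 0) (fun _ => f)) ≤
      ∫ V₀, (e + C * B.indicator (fun _ => (1 : ℝ)) V₀) ∂(gm (fun _ : X => 0) (fun _ => f)) := by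
    refine integral_mono_of_nonneg
      (Filter.Eventually.of_forall fun V₀ => integral_nonneg h0) ?_
      (Filter.Eventually.of_forall fun V₀ => ?_)
    · refine Integrable.add (integrable_const e) (Integrable.const_mul ?_ C)
      exact (integrable_const (1 : ℝ)).indicator hB
    · by_cases hV : V₀ ∈ B
      · simp only [Set.indicator_of_mem hV]
        linarith [hI V₀]
      · simp only [Set.indicator_of_notMem hV]
        linarith [hin V₀ hV]
  refine h3.trans (le_of_eq ?_)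
  rw [integral_add (integrable_const e)
    (((integrable_const (1 : ℝ)).indicator hB).const_mul C), integral_const, integral_const_mul,
    integral_indicator_const _ hB]
  simp

/-- the exceptional starts -/
theorem meas_exc (ρ₀ : ℝ) : MeasurableSet {V₀ : X → ℝ | ∃ x, ρ₀ < |V₀ x|} := by
  have h : {V₀ : X → ℝ | ∃ x, ρ₀ < |V₀ x|} = ⋃ x, {V₀ : X → ℝ | ρ₀ < |V₀ x|} := by
    ext V; simp
  rw [h]
  refine MeasurableSet.iUnion fun x => ?_
  exact measurableSet_lt measurable_const ((measurable_pi_apply x).abs)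

/-- THE BOUND of the V0 step -/
theorem v0_step (w f : ℝ≥0) (hfw : f ≤ w) (φ : (X → ℝ) → ℝ) (hφ : Measurable φ)
    (h0 : ∀ y, 0 ≤ φ y) (h1 : ∀ y, φ y ≤ 1) (e ρ₀ : ℝ) (he : 0 ≤ e)
    (hin : ∀ V₀ : X → ℝ, (∀ x, |V₀ x| ≤ ρ₀) → ∫ y, φ y ∂(gm V₀ (fun _ => w - f)) ≤ e) :
    ∫ y, φ y ∂(gm (fun _ : X => 0) (fun _ => w)) ≤
      e + (gm (fun _ : X => 0) (fun _ => f)).real {V₀ | ∃ x, ρ₀ < |V₀ x|} := by
  have h := start_le w f hfw φ hφ h0 h1 he _ (meas_exc ρ₀) (fun V₀ hV => hin V₀ fun x => by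
    by_contra hc
    exact hV ⟨x, not_le.1 hc⟩)
  rwa [one_mul] at h

/-- tail of one coordinate -/
theorem tail_one (f : ℝ≥0) (hf : 0 < f) (R : ℝ) (hR : 0 ≤ R) :
    (gaussianReal 0 f).real {y | R < |y|} ≤ 2 * Real.exp (-(R ^ 2 / (2 * f))) := by
  have hf' : (0 : ℝ) < f := by exact_mod_cast hf
  have hmgf : ∀ t : ℝ, mgf (fun y : ℝ => y) (gaussianReal 0 f) t = Real.exp (f * t ^ 2 / 2) := by
    intro t
    have h := mgf_gaussianReal (p := gaussianReal 0 f) (X := fun y : ℝ => y) (μ := 0) (v := f)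
      (by simp) t
    rw [h]
    congr 1
    ring
  have hint : ∀ t : ℝ, Integrable (fun y : ℝ => Real.exp (t * y)) (gaussianReal 0 f) := by
    intro t
    have h0 : 0 < mgf (fun y : ℝ => y) (gaussianReal 0 f) t := by rw [hmgf]; positivity
    by_contra hcon
    rw [mgf, integral_undef hcon] at h0
    exact lt_irrefl _ h0
  have h1 : (gaussianReal 0 f).real {y | R ≤ y} ≤ Real.exp (-(R ^ 2 / (2 * f))) := by
    refine (measure_ge_le_exp_mul_mgf (X := fun y : ℝ => y) R (t := R / f) (by positivity)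
      (hint _)).trans (le_of_eq ?_)
    rw [hmgf, ← Real.exp_add]
    congr 1; field_simp; ring
  have h2 : (gaussianReal 0 f).real {y | y ≤ -R} ≤ Real.exp (-(R ^ 2 / (2 * f))) := by
    refine (measure_le_le_exp_mul_mgf (X := fun y : ℝ => y) (-R) (t := -(R / f))
      (by have : 0 ≤ R / f := by positivity
          linarith)
      (hint _)).trans (le_of_eq ?_)
    rw [hmgf, ← Real.exp_add]
    congr 1; field_simp; ring
  have hsub : {y : ℝ | R < |y|} ⊆ {y | R ≤ y} ∪ {y | y ≤ -R} := by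
    intro y hy
    rw [Set.mem_ofPred_eq, lt_abs] at hy
    rcases hy with h | h
    · left; exact h.le
    · right
      rw [Set.mem_ofPred_eq]
      linarith
  calc (gaussianReal 0 f).real {y | R < |y|}
      ≤ (gaussianReal 0 f).real ({y | R ≤ y} ∪ {y | y ≤ -R}) := measureReal_mono hsub
    _ ≤ (gaussianReal 0 f).real {y | R ≤ y} + (gaussianReal 0 f).real {y | y ≤ -R} :=
        measureReal_union_le _ _
    _ ≤ 2 * Real.exp (-(R ^ 2 / (2 * f))) := by linarith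

/-- tail of the starts, general variances bounded by `f` -/
theorem tail_exc (f : ℝ≥0) (hf : 0 < f) (ρ₀ : ℝ) (hρ : 0 ≤ ρ₀) :
    (gm (fun _ : X => 0) (fun _ => f)).real {V₀ | ∃ x, ρ₀ < |V₀ x|} ≤
      Fintype.card X * 2 * Real.exp (-(ρ₀ ^ 2 / (2 * f))) := by
  have h : {V₀ : X → ℝ | ∃ x, ρ₀ < |V₀ x|} = ⋃ x ∈ (Finset.univ : Finset X),
      {V₀ : X → ℝ | ρ₀ < |V₀ x|} := by
    ext V; simp
  rw [h]
  refine (measureReal_biUnion_finset_le _ _).trans ?_
  have h2 : ∀ x : X, (gm (fun _ : X => 0) (fun _ => f)).real {V₀ : X → ℝ | ρ₀ < |V₀ x|} ≤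
      2 * Real.exp (-(ρ₀ ^ 2 / (2 * f))) := by
    intro x
    have h3 : (gm (fun _ : X => 0) (fun _ => f)).real {V₀ : X → ℝ | ρ₀ < |V₀ x|} =
        (gaussianReal 0 f).real {y | ρ₀ < |y|} := by
      have h4 := (measurePreserving_eval (fun _ : X => gaussianReal 0 f) x).measure_preimage
        (s := {y : ℝ | ρ₀ < |y|}) (measurableSet_lt measurable_const measurable_id.abs).nullMeasurableSet
      unfold Measure.real
      rw [← h4]
      rfl
    rw [h3]
    exact tail_one f hf ρ₀ hρ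
  calc ∑ x : X, (gm (fun _ : X => 0) (fun _ => f)).real {V₀ : X → ℝ | ρ₀ < |V₀ x|}
      ≤ ∑ _x : X, 2 * Real.exp (-(ρ₀ ^ 2 / (2 * f))) := Finset.sum_le_sum fun x _ => h2 x
    _ = Fintype.card X * 2 * Real.exp (-(ρ₀ ^ 2 / (2 * f))) := by
        rw [Finset.sum_const, Finset.card_univ, nsmul_eq_mul, mul_assoc]

/-- (1) + (2) + (3) together -/
theorem v0_final (w f : ℝ≥0) (hf : 0 < f) (hfw : f ≤ w) (φ : (X → ℝ) → ℝ) (hφ : Measurable φ)
    (h0 : ∀ y, 0 ≤ φ y) (h1 : ∀ y, φ y ≤ 1) (e ρ₀ : ℝ) (he : 0 ≤ e) (hρ : 0 ≤ ρ₀)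
    (hin : ∀ V₀ : X → ℝ, (∀ x, |V₀ x| ≤ ρ₀) → ∫ y, φ y ∂(gm V₀ (fun _ => w - f)) ≤ e) :
    ∫ y, φ y ∂(gm (fun _ : X => 0) (fun _ => w)) ≤
      e + Fintype.card X * 2 * Real.exp (-(ρ₀ ^ 2 / (2 * f))) :=
  (v0_step w f hfw φ hφ h0 h1 e ρ₀ he hin).trans (by linarith [tail_exc (X := X) f hf ρ₀ hρ])

end Pool.Agent.ACX.H79
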